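import Pool.Agent.Results.MP_ba6ea3_co.TwoSidedBounds

/-!
# MP_c07b9b_co, Q1: `h_s(m) ~ m ^ 2`

The growth of the shifted Heller constant. All definitions are written out in this file; the
work is in the starting file `MP_ba6ea3_co.TwoSidedBounds`.
-/

set_option autoImplicit false

namespace Pool.Agent.Results.MP_c07b9b_co.Growth

open Filter Topology Asymptotics

/-- totally 1-submodular: every square submatrix of every size has determinant in `[-1,1]` -/
def IsTotally1Submodular {m n : ℕ} (M : Matrix (Fin m) (Fin n) ℝ) : Prop :=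
  ∀ (k : ℕ) (r : Fin k → Fin m) (c : Fin k → Fin n), |(M.submatrix r c).det| ≤ 1

/-- `n` is the number of columns of a matrix `A` with entries in `{-1,0,1}` and pairwise distinct
columns such that `t + A` is totally 1-submodular for some nonzero `t` in `[0,1)^m` -/
def IsShiftedSize (m n : ℕ) : Prop :=
  ∃ (t : Fin m → ℝ) (A : Matrix (Fin m) (Fin n) ℝ),
    (∀ i, t i ∈ Set.Ico (0 : ℝ) 1) ∧ t ≠ 0 ∧ (∀ i j, A i j ∈ ({-1, 0, 1} : Set ℝ)) ∧
    (∀ j j', (∀ i, A i j = A i j') → j = j') ∧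
    IsTotally1Submodular (Matrix.of fun i j => t i + A i j)

/-- the shifted Heller constant -/
noncomputable def hs (m : ℕ) : ℕ := sSup {n | IsShiftedSize m n}

theorem isShiftedSize_iff (m n : ℕ) :
    IsShiftedSize m n ↔ n ∈ Pool.Agent.W580.SH.ShiftedSizes m := by
  constructor
  · rintro ⟨t, A, h1, h2, h3, h4, h5⟩
    refine ⟨t, A, fun i => ⟨(h1 i).1, (h1 i).2⟩, h2, fun i j => ?_, fun j j' h => ?_, h5⟩
    · simpa using h3 i j
    · exact h4 j j' fun i => congrFun h i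
  · rintro ⟨t, A, h1, h2, h3, h4, h5⟩
    refine ⟨t, A, fun i => ⟨(h1 i).1, (h1 i).2⟩, h2, fun i j => ?_, fun j j' h => ?_, h5⟩
    · simpa using h3 i j
    · exact h4 (funext h)

theorem hs_eq (m : ℕ) : hs m = Pool.Agent.W580.SH.shiftedHeller m := by
  unfold hs Pool.Agent.W580.SH.shiftedHeller
  congr 1
  ext n
  exact isShiftedSize_iff m n

/-- **Answer to Q1: `h_s(m) ~ m²`.** For every `m ≥ 1` the number `hs m` is the largest number of
columns of an admissible matrix, `m² - m + 2 ≤ hs m ≤ m² + m`, and `hs m` is asymptotically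
equivalent to `m²`, with error `O(m)`. -/
theorem result :
    (∀ m : ℕ, 1 ≤ m → IsGreatest {n | IsShiftedSize m n} (hs m)) ∧
    (∀ m : ℕ, 1 ≤ m → (m : ℤ) ^ 2 - m + 2 ≤ hs m ∧ (hs m : ℤ) ≤ (m : ℤ) ^ 2 + m) ∧
    (fun m : ℕ => (hs m : ℝ)) ~[atTop] (fun m : ℕ => (m : ℝ) ^ 2) ∧
    Tendsto (fun m : ℕ => (hs m : ℝ) / (m : ℝ) ^ 2) atTop (𝓝 1) ∧
    ∀ m : ℕ, 1 ≤ m → |(hs m : ℝ) - (m : ℝ) ^ 2| ≤ m := by
  have hR := Pool.Agent.Results.MP_ba6ea3_co.TwoSidedBounds.result.1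
  have hb : ∀ m : ℕ, 1 ≤ m → (m : ℤ) ^ 2 - m + 2 ≤ hs m ∧ (hs m : ℤ) ≤ (m : ℤ) ^ 2 + m := by
    intro m hm
    obtain ⟨-, -, -, h4, -, h6, -, -⟩ := hR m hm
    rw [hs_eq]
    constructor
    · have : (m : ℤ) ^ 2 + 2 ≤ Pool.Agent.W580.SH.shiftedHeller m + m := by exact_mod_cast h4
      linarith
    · exact_mod_cast h6
  have hbR : ∀ m : ℕ, 1 ≤ m → |(hs m : ℝ) - (m : ℝ) ^ 2| ≤ m := by
    intro m hm
    obtain ⟨h1, h2⟩ := hb m hm
    have h1' : (m : ℝ) ^ 2 - m + 2 ≤ hs m := by exact_mod_cast h1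
    have h2' : (hs m : ℝ) ≤ (m : ℝ) ^ 2 + m := by exact_mod_cast h2
    rw [abs_le]
    constructor <;> linarith
  have ht : Tendsto (fun m : ℕ => (hs m : ℝ) / (m : ℝ) ^ 2) atTop (𝓝 1) := by
    have h0 : Tendsto (fun m : ℕ => (1 : ℝ) / (m : ℝ)) atTop (𝓝 0) :=
      tendsto_const_div_atTop_nhds_zero_nat (1 : ℝ)
    have h1 : Tendsto (fun m : ℕ => (1 : ℝ) - 1 / (m : ℝ)) atTop (𝓝 1) := by
      simpa using h0.const_sub (1 : ℝ)
    have h2 : Tendsto (fun m : ℕ => (1 : ℝ) + 1 / (m : ℝ)) atTop (𝓝 1) := by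
      simpa using h0.const_add (1 : ℝ)
    refine tendsto_of_tendsto_of_tendsto_of_le_of_le' h1 h2 ?_ ?_
    · filter_upwards [eventually_ge_atTop 1] with m hm
      have hm0 : (0 : ℝ) < m := by exact_mod_cast hm
      have h := (abs_le.1 (hbR m hm)).1
      rw [le_div_iff₀ (by positivity)]
      have e : (1 - 1 / (m : ℝ)) * (m : ℝ) ^ 2 = (m : ℝ) ^ 2 - m := by field_simp
      rw [e]
      linarith
    · filter_upwards [eventually_ge_atTop 1] with m hm
      have hm0 : (0 : ℝ) < m := by exact_mod_cast hm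
      have h := (abs_le.1 (hbR m hm)).2
      rw [div_le_iff₀ (by positivity)]
      have e : (1 + 1 / (m : ℝ)) * (m : ℝ) ^ 2 = (m : ℝ) ^ 2 + m := by field_simp
      rw [e]
      linarith
  refine ⟨fun m hm => ?_, hb, ?_, ht, hbR⟩
  · obtain ⟨h1, -⟩ := hR m hm
    rw [hs_eq]
    have e : {n | IsShiftedSize m n} = Pool.Agent.W580.SH.ShiftedSizes m := by
      ext n
      exact isShiftedSize_iff m n
    rw [e]
    exact h1
  · rw [isEquivalent_iff_tendsto_one]
    · exact ht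
    · filter_upwards [eventually_ge_atTop 1] with m hm
      have hm0 : (0 : ℝ) < m := by exact_mod_cast hm
      positivity

end Pool.Agent.Results.MP_c07b9b_co.Growth
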